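import Mathlib
import Pool.Agent.Lib.MP_4ffbf9_nt.B.All
import Pool.Agent.Lib.MP_4ffbf9_nt.B.Eq

set_option autoImplicit false

namespace Pool.Agent.Results.MP_4ffbf9_nt.GapAll

open Filter Pool.Agent.Lib.MP_4ffbf9_nt.B

theorem exists_g (A C κ : ℕ) (hA : 0 < A) (hC : 0 < C) {ε : ℝ} (hε : 0 < ε) :
    ∃ g₀ : ℕ, 3 ≤ g₀ ∧ 2 * C < g₀ ∧
      ∀ g, g₀ ≤ g → (κ : ℝ) * Real.log ((g : ℝ) * A * C) ^ κ ≤ ε / 8 * g := by
  have h0 : (0 : ℝ) < A * C := by positivity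
  have h1 : Tendsto (fun g : ℕ => (g : ℝ) * A * C) atTop atTop := by
    simpa only [mul_assoc] using tendsto_natCast_atTop_atTop.atTop_mul_const h0
  have h2 := h1.eventually ((Real.isLittleO_pow_log_id_atTop (n := κ)).def
    (c := ε / 8 / ((κ + 1) * (A * C))) (by positivity))
  obtain ⟨g₁, hg₁⟩ := eventually_atTop.1 h2
  refine ⟨g₁ + 3 + 2 * C, by omega, by omega, fun g hg => ?_⟩
  have h3 := (le_abs_self _).trans (hg₁ g (by omega))
  rw [id, Real.norm_of_nonneg (by positivity)] at h3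
  calc (κ : ℝ) * Real.log ((g : ℝ) * A * C) ^ κ
      ≤ (κ + 1) * (ε / 8 / ((κ + 1) * (A * C)) * ((g : ℝ) * A * C)) :=
        (mul_le_mul_of_nonneg_left h3 (Nat.cast_nonneg _)).trans (by gcongr; linarith)
    _ = _ := by field_simp

theorem log_le {Z L g ε : ℝ} (hZ : 1 ≤ Z) (hg : 0 < g) (hε : 0 < ε) (hL : L ≤ ε / 8 * g)
    (h : Z * Real.exp (-(L * (1 + Real.log Z / g))) ≤ Z ^ (1 - ε)) : 7 * Real.log Z ≤ g := by
  have h0 : 0 < Z := by linarith
  have h1 := Real.log_nonneg hZ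
  have h2 := Real.log_le_log (by positivity) h
  rw [Real.log_mul h0.ne' (Real.exp_pos _).ne', Real.log_exp, Real.log_rpow h0] at h2
  have h3 : L * (1 + Real.log Z / g) ≤ ε / 8 * g * (1 + Real.log Z / g) := by gcongr
  have h4 : ε / 8 * g * (1 + Real.log Z / g) = ε / 8 * (g + Real.log Z) := by field_simp
  refine le_of_mul_le_mul_left ?_ (show 0 < ε / 8 by positivity)
  linarith

theorem log_ge {n : ℕ} {x : Fin n → ℕ} (h : ∀ i, 2 ≤ x i) :
    (n : ℝ) * Real.log 2 ≤ Real.log ((∏ i, x i : ℕ) : ℝ) := by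
  rw [← Real.log_pow]
  refine Real.log_le_log (by positivity) ?_
  have := Finset.pow_card_le_prod Finset.univ x 2 fun i _ => h i
  rw [Finset.card_univ, Fintype.card_fin] at this
  exact_mod_cast this

/-- Gap theorem for two products of the same degree, uniform in the degree. -/
theorem result :
    ∀ (A C R S : ℕ) (M θ ε : ℝ), 0 < A → 0 < C → θ < 1 → 0 < ε →
      {t : ℕ × ℕ | A * t.1 ≠ C * t.2 ∧
        ∃ (n : ℕ) (x z : Fin n → ℕ), 0 < n ∧ (∀ i, 0 < x i) ∧ (∀ i, 0 < z i) ∧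
          (Finset.univ.image x).card ≤ R ∧ (Finset.univ.image z).card ≤ R ∧
          (∀ i j, x i ≤ x j + S * n) ∧ (∀ i j, z i ≤ z j + S * n) ∧
          (∀ i j, (x i : ℝ) ≤ x j + M * (x j : ℝ) ^ θ) ∧
          (∀ i j, (z i : ℝ) ≤ z j + M * (z j : ℝ) ^ θ) ∧
          (∏ i, x i) = t.1 ∧ (∏ i, z i) = t.2 ∧
          |(A : ℝ) * t.1 - C * t.2| ≤ (t.2 : ℝ) ^
            (1 - (((Finset.univ.image x).card : ℝ) + (Finset.univ.image z).card) / n - ε)}.Finite := by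
  intro A C R S M θ ε hA hC hθ hε
  obtain ⟨κ, hκ⟩ := gap R M θ hθ
  obtain ⟨g₀, g3, gC, hg⟩ := exists_g A C κ hA hC hε
  refine (((Set.finite_Iic ((C + 1) * ⌈Real.exp g₀⌉₊)).prod (Set.finite_Iic ⌈Real.exp g₀⌉₊)).union
    (Set.finite_iUnion fun n : Fin g₀ =>
      Eq.gapEqual A C (n + 1) (S * (n + 1)) ε hA hC (Nat.succ_pos _) hε)).subset ?_
  rintro ⟨X, Z⟩ ⟨hne, n, x, z, hn, hx, hz, rx, rz, sx, sz, mx, mz, hX, hZ, h⟩
  by_cases hs : n ≤ g₀
  · obtain ⟨k, rfl⟩ : ∃ k, n = k + 1 := ⟨n - 1, by omega⟩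
    exact Or.inr (Set.mem_iUnion.2 ⟨⟨k, hs⟩, hne, x, z, hx, hz, sx, sz, hX, hZ, h⟩)
  simp only at hne hX hZ h
  obtain ⟨i, v, a, h0, h1, h2, h3⟩ := stShape R n M θ x hn rx mx
  obtain ⟨j, w, c, k0, k1, k2, k3⟩ := stShape R n M θ z hn rz mz
  have Z1 : (1 : ℝ) ≤ Z := by
    rw [← hZ]; exact_mod_cast Finset.one_le_prod' fun i _ => hz i
  have h4 : |(A : ℝ) * X - C * Z| ≤ (Z : ℝ) ^ (1 - ε) := by
    refine h.trans (Real.rpow_le_rpow_of_exponent_le Z1 ?_)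
    have : 0 ≤ (((Finset.univ.image x).card : ℝ) + (Finset.univ.image z).card) / n := by positivity
    linarith
  have h5 : (X : ℝ) ≤ (C + 1) * Z := by
    have a1 := h4.trans (Real.rpow_le_self_of_one_le Z1 (by linarith))
    have a2 : (X : ℝ) ≤ A * X :=
      le_mul_of_one_le_left (Nat.cast_nonneg _) (by exact_mod_cast hA)
    linarith [(abs_le.1 a1).2]
  have key : ∀ g, g₀ ≤ g → Pr M θ g (x i) v a → Pr M θ g (z j) w c → 7 * Real.log Z ≤ g :=
    fun g gg p1 p2 => log_le Z1 (by exact_mod_cast (show 0 < g by omega)) hε (hg g gg)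
      ((hκ A C g _ _ X Z v a w c hA hC (by omega) p1 p2 (h3.trans hX).symm (k3.trans hZ).symm
        hne).trans h4)
  have l0 := Real.log_nonneg Z1
  by_cases h11 : x i = 1 ∧ z j = 1
  · have a1 := key g₀ le_rfl ⟨hx i, h1, Or.inl h11.1⟩ ⟨hz j, k1, Or.inl h11.2⟩
    have a2 : (Z : ℝ) ≤ ⌈Real.exp g₀⌉₊ :=
      ((Real.log_le_iff_le_exp (by linarith)).1 (by linarith)).trans (Nat.le_ceil _)
    have a3 : Z ≤ ⌈Real.exp g₀⌉₊ := by exact_mod_cast a2
    have a4 : X ≤ (C + 1) * Z := by exact_mod_cast h5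
    exact Or.inl ⟨a4.trans (Nat.mul_le_mul_left _ a3), a3⟩
  exfalso
  have a1 := key n (by omega) ⟨hx i, h1, Or.inr (by rw [h2]; exact ⟨dvd_rfl, hn⟩)⟩
    ⟨hz j, k1, Or.inr (by rw [k2]; exact ⟨dvd_rfl, hn⟩)⟩
  have l2 : (n : ℝ) * (69 / 100) ≤ n * Real.log 2 := by
    gcongr
    linarith [Real.log_two_gt_d9]
  have n1 : 2 * (C : ℝ) < n := by exact_mod_cast (show 2 * C < n by omega)
  have c0 : (0 : ℝ) ≤ C := Nat.cast_nonneg _
  rcases not_and_or.1 h11 with e | e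
  · have a2 := log_ge fun l => le_trans (show 2 ≤ x i by have := hx i; omega) (h0 l)
    have X0 : (0 : ℝ) < X := by
      rw [← hX]; exact_mod_cast Finset.prod_pos fun i _ => hx i
    have a3 := Real.log_le_log X0 h5
    rw [Real.log_mul (by linarith) (by linarith)] at a3
    have a4 := Real.log_le_sub_one_of_pos (show (0 : ℝ) < C + 1 by linarith)
    rw [hX] at a2
    linarith
  · have a2 := log_ge fun l => le_trans (show 2 ≤ z j by have := hz j; omega) (k0 l)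
    rw [hZ] at a2
    linarith

end Pool.Agent.Results.MP_4ffbf9_nt.GapAll
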