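import Mathlib
import Pool.Agent.Lib.MP_4ffbf9_nt.H.Fin

set_option autoImplicit false

namespace Pool.Agent.Results.MP_4ffbf9_nt.HalfLines

open Pool.Agent.Lib.MP_4ffbf9_nt.H

/-- Finiteness for `A X + B Y = C Z` in almost perfect powers of large unbounded degrees whose
roots lie on a line of height below the pigeonhole bound. -/
theorem result :
    ∀ η θ : ℝ, 0 ≤ η → η < 1 → 2 * θ < (1 - η) ^ 2 → ∃ n₀ : ℕ,
      ∀ (A B C : ℕ) (Q : ℝ), 0 < A → 0 < B → 0 < C →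
      {t : ℕ × ℕ × ℕ | 0 < t.1 ∧ 0 < t.2.1 ∧ 0 < t.2.2 ∧
        A * t.1 + B * t.2.1 = C * t.2.2 ∧
        ((Nat.gcd t.1 t.2.1 : ℝ) /
          (∏ l ∈ (Nat.gcd t.1 t.2.1).primeFactors, (l : ℝ)) ≤ Q) ∧
        ∃ (p q r a b c x y z : ℕ) (α β γ : ℤ) (W S : ℝ),
          W = ((max t.1 (max t.2.1 t.2.2) : ℕ) : ℝ) ∧
          S = 1 / (p : ℝ) + 1 / (q : ℝ) + 1 / (r : ℝ) ∧
          n₀ ≤ p ∧ n₀ ≤ q ∧ n₀ ≤ r ∧
          1 / (p : ℝ) ≤ 1 / (q : ℝ) + 1 / (r : ℝ) ∧ 1 / (q : ℝ) ≤ 1 / (p : ℝ) + 1 / (r : ℝ) ∧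
          1 / (r : ℝ) ≤ 1 / (p : ℝ) + 1 / (q : ℝ) ∧
          t.1 = a * x ^ p ∧ t.2.1 = b * y ^ q ∧ t.2.2 = c * z ^ r ∧
          (a : ℝ) ≤ W ^ η ∧ (b : ℝ) ≤ W ^ η ∧ (c : ℝ) ≤ W ^ η ∧
          (α ≠ 0 ∨ β ≠ 0 ∨ γ ≠ 0) ∧ α * (x : ℤ) + β * (y : ℤ) + γ * (z : ℤ) = 0 ∧
          |(α : ℝ)| * W ^ (1 / (p : ℝ)) ≤ W ^ (θ * S) ∧
          |(β : ℝ)| * W ^ (1 / (q : ℝ)) ≤ W ^ (θ * S) ∧
          |(γ : ℝ)| * W ^ (1 / (r : ℝ)) ≤ W ^ (θ * S)}.Finite := by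
  intro η θ hη0 hη1 hθ
  obtain ⟨n₀, hn₀, H⟩ := lines_finite hη0 hη1 hθ
  refine ⟨n₀, fun A B D Q hA hB hD => ?_⟩
  have hfin := H ![(A : ℤ), (B : ℤ), -(D : ℤ)] ((A * B * ⌈Q⌉₊) ^ 2)
    (by intro i; fin_cases i <;> simp <;> omega)
  refine (hfin.image fun X => (X 0, X 1, X 2)).subset ?_
  rintro ⟨X, Y, Z⟩ ⟨hX, hY, hZ, heq, hQ, p, q, r, a, b, c, x, y, z, α, β, γ, W, S, hW, hS, hp, hq,
    hr, t1, t2, t3, eX, eY, eZ, ha, hb, hc, hne, hl, bα, bβ, bγ⟩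
  simp only at hX hY hZ heq hQ hW eX eY eZ
  have hW0 : 0 < W := by
    rw [hW]; exact_mod_cast lt_of_lt_of_le hX (le_max_left _ _)
  have hL0 : 0 ≤ Real.log W := by rw [hW]; exact Real.log_natCast_nonneg _
  have hq' : Nat.gcd X Y ≤ ⌈Q⌉₊ * ∏ l ∈ (Nat.gcd X Y).primeFactors, l := by
    have h0 : (0 : ℝ) < ∏ l ∈ (Nat.gcd X Y).primeFactors, (l : ℝ) :=
      Finset.prod_pos fun l hl => by exact_mod_cast (Nat.prime_of_mem_primeFactors hl).pos
    rw [div_le_iff₀ h0] at hQ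
    have h1 := hQ.trans (mul_le_mul_of_nonneg_right (Nat.le_ceil Q) h0.le)
    rw [← Nat.cast_prod] at h1
    exact_mod_cast h1
  have hg : 0 < Nat.gcd X Y := Nat.gcd_pos_of_pos_left _ hX
  have dX : x ^ p ∣ X := Dvd.intro_left _ eX.symm
  have dY : y ^ q ∣ Y := Dvd.intro_left _ eY.symm
  have dZ : z ^ r ∣ Z := Dvd.intro_left _ eZ.symm
  have hAB : 0 < A * B := Nat.mul_pos hA hB
  have g1 : Nat.gcd (x ^ p) (y ^ q) ≤ (A * B * ⌈Q⌉₊) ^ 2 :=
    gcd_pow_bound hAB hg (hn₀.trans hp) (hn₀.trans hq) hq'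
      ((Nat.dvd_gcd ((Nat.gcd_dvd_left _ _).trans dX)
        ((Nat.gcd_dvd_right _ _).trans dY)).mul_left _)
  have g2 : Nat.gcd (x ^ p) (z ^ r) ≤ (A * B * ⌈Q⌉₊) ^ 2 := by
    refine gcd_pow_bound hAB hg (hn₀.trans hp) (hn₀.trans hr) hq' ?_
    rw [mul_assoc, ← Nat.gcd_mul_left]
    have h1 := (Nat.gcd_dvd_left (x ^ p) (z ^ r)).trans dX
    refine (Nat.dvd_gcd (h1.mul_left _) ?_).mul_left _
    refine (Nat.dvd_add_right (h1.mul_left A)).1 ?_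
    rw [heq]
    exact ((Nat.gcd_dvd_right _ _).trans dZ).mul_left _
  have g3 : Nat.gcd (y ^ q) (z ^ r) ≤ (A * B * ⌈Q⌉₊) ^ 2 := by
    refine gcd_pow_bound hAB hg (hn₀.trans hq) (hn₀.trans hr) hq' ?_
    rw [mul_comm A, mul_assoc, ← Nat.gcd_mul_left]
    have h1 := (Nat.gcd_dvd_left (y ^ q) (z ^ r)).trans dY
    refine (Nat.dvd_gcd ?_ (h1.mul_left _)).mul_left _
    refine (Nat.dvd_add_left (h1.mul_left B)).1 ?_
    rw [heq]
    exact ((Nat.gcd_dvd_right _ _).trans dZ).mul_left _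
  have hΛ : ∑ j, Real.log W / ((![p, q, r] : Fin 3 → ℕ) j : ℝ) = S * Real.log W := by
    rw [Fin.sum_univ_three, hS]
    simp only [Matrix.cons_val_zero, Matrix.cons_val_one, Matrix.cons_val]
    ring
  have hup : ∀ U : ℕ, 0 < U → U ≤ max X (max Y Z) → Real.log U ≤ Real.log W := fun U h1 h2 =>
    Real.log_le_log (by exact_mod_cast h1) (by rw [hW]; exact_mod_cast h2)
  have hco : ∀ u v U : ℕ, 0 < U → U = u * v → (u : ℝ) ≤ W ^ η →
      Real.log u ≤ η * Real.log W := fun u v U h1 h2 h3 => by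
    rw [← Real.log_rpow hW0]
    exact Real.log_le_log (by exact_mod_cast Nat.pos_of_mul_pos_right (h2 ▸ h1)) h3
  have htri : ∀ u : ℝ, 2 * (1 / u) ≤ S → 2 * (Real.log W / u) ≤ S * Real.log W := fun u h => by
    calc 2 * (Real.log W / u) = 2 * (1 / u) * Real.log W := by ring
      _ ≤ _ := mul_le_mul_of_nonneg_right h hL0
  have hline : ∀ (e : ℤ) (u : ℝ), e ≠ 0 → |(e : ℝ)| * W ^ (1 / u) ≤ W ^ (θ * S) →
      Real.log |(e : ℝ)| + Real.log W / u ≤ θ * (S * Real.log W) := fun e u he h => by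
    have h1 : (0 : ℝ) < |(e : ℝ)| := abs_pos.mpr (by exact_mod_cast he)
    have h2 := Real.log_le_log (by positivity) h
    rw [Real.log_mul h1.ne' (by positivity), Real.log_rpow hW0, Real.log_rpow hW0] at h2
    calc _ = Real.log |(e : ℝ)| + 1 / u * Real.log W := by ring
      _ ≤ θ * S * Real.log W := h2
      _ = _ := by ring
  refine ⟨![X, Y, Z], ⟨?_, ?_, ![p, q, r], ![a, b, c], ![x, y, z], ![α, β, γ], Real.log W,
    ?_, ?_, ?_, ?_, ?_, ?_, ?_, ?_, ?_, ?_⟩, rfl⟩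
  · intro i; fin_cases i; exacts [hX, hY, hZ]
  · have : (A : ℤ) * X + B * Y = D * Z := by exact_mod_cast heq
    rw [Fin.sum_univ_three]
    simp only [Matrix.cons_val_zero, Matrix.cons_val_one, Matrix.cons_val]
    linarith
  · intro i; fin_cases i; exacts [eX, eY, eZ]
  · intro i; fin_cases i; exacts [hp, hq, hr]
  · intro i
    fin_cases i
    exacts [hup X hX (le_max_left _ _), hup Y hY (le_max_of_le_right (le_max_left _ _)),
      hup Z hZ (le_max_of_le_right (le_max_right _ _))]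
  · rcases max_choice X (max Y Z) with h1 | h1
    · exact ⟨0, by rw [hW, h1]; rfl⟩
    · rcases max_choice Y Z with h2 | h2
      · exact ⟨1, by rw [hW, h1, h2]; rfl⟩
      · exact ⟨2, by rw [hW, h1, h2]; rfl⟩
  · intro i; fin_cases i; exacts [hco a _ X hX eX ha, hco b _ Y hY eY hb, hco c _ Z hZ eZ hc]
  · intro i j hij
    fin_cases i <;> fin_cases j
    · exact absurd rfl hij
    · exact g1
    · exact g2
    · exact (Nat.gcd_comm _ _).trans_le g1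
    · exact absurd rfl hij
    · exact g3
    · exact (Nat.gcd_comm _ _).trans_le g2
    · exact (Nat.gcd_comm _ _).trans_le g3
    · exact absurd rfl hij
  · intro i
    rw [hΛ]
    fin_cases i
    exacts [htri p (by linarith), htri q (by linarith), htri r (by linarith)]
  · intro h0
    have a0 : α = 0 := congrFun h0 0
    have a1 : β = 0 := congrFun h0 1
    have a2 : γ = 0 := congrFun h0 2
    tauto
  · rw [Fin.sum_univ_three]; exact hl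
  · intro i
    rw [hΛ]
    fin_cases i
    exacts [fun h => hline α p h bα, fun h => hline β q h bβ, fun h => hline γ r h bγ]

end Pool.Agent.Results.MP_4ffbf9_nt.HalfLines
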