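import Mathlib
import Pool.Agent.Lib.MP_4ffbf9_nt.JM.Main

set_option autoImplicit false

namespace Pool.Agent.Results.MP_4ffbf9_nt.MovingDirection

open Pool.Agent.Lib.MP_4ffbf9_nt

/-- Finiteness, over all degrees, of the solutions in products with boundedly many distinct factors
whose three bases lie close to a rational direction `(α : β : γ)` of small height; the direction
may depend on the solution, and the allowed distance `b ^ θ` has `θ → 1` as the degree grows. -/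
theorem result :
    ∀ (A B C R : ℕ) (Q M : ℝ), 0 < A → 0 < B → 0 < C →
      ∃ θ : ℕ → ℝ, (∀ n, 1 / 2 ≤ θ n) ∧ Filter.Tendsto θ Filter.atTop (nhds 1) ∧
      {t : ℕ × ℕ × ℕ |
        A * t.1 + B * t.2.1 = C * t.2.2 ∧
        ∃ (nX nY nZ bX bY bZ sX sY sZ : ℕ)
          (x : Fin nX → ℕ) (y : Fin nY → ℕ) (z : Fin nZ → ℕ),
          0 < bX ∧ 0 < bY ∧ 0 < bZ ∧
          (∀ i, bX ≤ x i ∧ x i ≤ bX + sX) ∧ (∃ i, x i = bX) ∧ (∃ i, x i = bX + sX) ∧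
          (∀ i, bY ≤ y i ∧ y i ≤ bY + sY) ∧ (∃ i, y i = bY) ∧ (∃ i, y i = bY + sY) ∧
          (∀ i, bZ ≤ z i ∧ z i ≤ bZ + sZ) ∧ (∃ i, z i = bZ) ∧ (∃ i, z i = bZ + sZ) ∧
          (∏ i, x i) = t.1 ∧ (∏ i, y i) = t.2.1 ∧ (∏ i, z i) = t.2.2 ∧
          ((sX : ℝ) ^ 2 / (bX : ℝ) ≤ M) ∧
          ((sY : ℝ) ^ 2 / (bY : ℝ) ≤ M) ∧
          ((sZ : ℝ) ^ 2 / (bZ : ℝ) ≤ M) ∧
          ((1 + (sX : ℝ)) / (nX : ℝ) + (1 + (sY : ℝ)) / (nY : ℝ)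
            + (1 + (sZ : ℝ)) / (nZ : ℝ) ≤ 1) ∧
          ((Nat.gcd t.1 t.2.1 : ℝ) /
            (∏ p ∈ (Nat.gcd t.1 t.2.1).primeFactors, (p : ℝ)) ≤ Q) ∧
          (Finset.univ.image x).card ≤ R ∧ (Finset.univ.image y).card ≤ R ∧
          (Finset.univ.image z).card ≤ R ∧
          ∃ (α β γ : ℕ) (E : ℝ),
            E = M * (bZ : ℝ) ^ (1 / Real.log (Real.log (bZ + 2)) ^ (4 * R + 3)) ∧
            0 < α ∧ 0 < β ∧ 0 < γ ∧ (α : ℝ) ≤ E ∧ (β : ℝ) ≤ E ∧ (γ : ℝ) ≤ E ∧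
            |(γ : ℝ) * bX - α * bZ| ≤ E * (bZ : ℝ) ^ θ nZ ∧
            |(γ : ℝ) * bY - β * bZ| ≤ E * (bZ : ℝ) ^ θ nZ}.Finite := by
  intro A B D R Q M hA hB hD
  obtain ⟨θ, h1, h2, h3⟩ := JM.final R Q M hA hB hD
  refine ⟨θ, h1, h2, h3.subset ?_⟩
  rintro ⟨X, Y, Z⟩ ⟨he, nX, nY, nZ, bX, bY, bZ, sX, sY, sZ, x, y, z, hbX, hbY, hbZ, hx, ⟨iX, -⟩, -,
    hy, ⟨iY, -⟩, -, hz, ⟨iZ, -⟩, -, hX, hY, hZ, mX, mY, mZ, hσ, hQ, cX, cY, cZ, α, β, γ, E, hE,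
    hα, hβ, hγ, aE, bE, cE, d1, d2⟩
  exact ⟨⟨X, Y, Z, nX, nY, nZ, bX, bY, bZ, sX, sY, sZ, α, β, γ, x, y, z, E⟩,
    ⟨⟨hbX, iX.pos, hx, hX, mX, cX⟩, ⟨hbY, iY.pos, hy, hY, mY, cY⟩, ⟨hbZ, iZ.pos, hz, hZ, mZ, cZ⟩,
      he, hσ, hQ, hE, ⟨hα, aE⟩, ⟨hβ, bE⟩, ⟨hγ, cE⟩, d1, d2⟩, rfl⟩

end Pool.Agent.Results.MP_4ffbf9_nt.MovingDirection
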