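import Mathlib
import Pool.Agent.Lib.MP_4ffbf9_nt.QH.UF

set_option autoImplicit false

namespace Pool.Agent.Results.MP_4ffbf9_nt.UniformProducts

open Pool.Agent.Lib.MP_4ffbf9_nt.QH

/-- `A X + B Y = C Z` in products with at most `R` distinct factors, commensurable degrees
`g k * n` and free cofactors `a k`: a lower bound for the length of an interval `[l, h]` that holds
the powers `x ^ g` of the factors, uniform in `δ` and in the cofactors. -/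
theorem result : ∃ κ : ℕ → ℕ, κ 1 = 3 ∧ ∀ R : ℕ, ∃ C₀ : ℝ, 0 < C₀ ∧
    ∀ (A B C : ℕ) (Q M ε : ℝ), 0 < A → 0 < B → 0 < C → 0 < ε → ∃ n₀ : ℕ,
    ∀ (n l h : ℕ) (δ : ℝ) (W g a : Fin 3 → ℕ) (x : (k : Fin 3) → Fin (g k * n) → ℕ), n₀ ≤ n →
      A * W 0 + B * W 1 = C * W 2 →
      (Nat.gcd (W 0) (W 1) : ℝ) / (∏ p ∈ (Nat.gcd (W 0) (W 1)).primeFactors, (p : ℝ)) ≤ Q →
      2 ^ n ≤ W 0 * W 1 * W 2 →
      (∀ k, W k = a k * ∏ i, x k i ∧ 0 < g k ∧ g k ≤ R ∧ 0 < a k ∧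
        (Finset.univ.image (x k)).card ≤ R ∧
        (∀ i, 0 < x k i ∧ l ≤ x k i ^ g k ∧ x k i ^ g k ≤ h) ∧
        ∀ i j, (x k i : ℝ) ≤ x k j + M * (x k j : ℝ) ^ (1 - ε)) →
      0 < δ → 1 ≤ δ ^ (2 * κ R) * n → 1 ≤ δ ^ (2 * κ R) * Real.log h →
      Real.log (2 * a 0 * a 1 * a 2) ≤ δ ^ κ R * n * Real.log h →
      (1 + n / (Real.log (2 * a 0 * a 1 * a 2) * Real.log n ^ 2)) * (h : ℝ) ^ (1 - C₀ * δ) ≤
        (h : ℝ) - l := by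
  obtain ⟨κ, h1, h2⟩ := exists_wn
  refine ⟨κ, h1, fun R => ?_⟩
  obtain ⟨hκ, C₁, hC₁, hW⟩ := h2 R
  exact final_of hκ hC₁ hW

end Pool.Agent.Results.MP_4ffbf9_nt.UniformProducts
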